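import Mathlib
import Pool.Agent.Q43.LD.Null

set_option autoImplicit false

/-!
# The asymptotic for near-coincidences, for all bases outside a set of logarithmic dimension two
-/

namespace Pool.Agent.Results.MP_606be1_nt.AllBasesButLogDimensionTwo

open MeasureTheory
open scoped ENNReal

/-- The pairs of natural numbers `(n, m)` with `|a ^ n - b ^ m| ≤ x`. -/
def pairs (a b x : ℝ) : Set (ℕ × ℕ) := {p | |a ^ p.1 - b ^ p.2| ≤ x}

/-- The number of these pairs is `(log x) ^ 2 / (log a log b)`, with an error `O(log x)`. -/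
def Asymptotic (a b : ℝ) : Prop :=
  ∃ C : ℝ, ∀ x : ℝ, 2 ≤ x → (pairs a b x).Finite ∧
    |((pairs a b x).ncard : ℝ) - Real.log x ^ 2 / (Real.log a * Real.log b)| ≤ C * Real.log x

/-- The gauge function `(log (1 / r)) ^ (-s)`. -/
noncomputable def gauge (s : ℝ) (r : ℝ≥0∞) : ℝ≥0∞ := ENNReal.ofReal ((Real.log (r.toReal)⁻¹)⁻¹ ^ s)

/-- Let `b > 1` (for instance `b = e`).  The set of the `a > 1` for which the number of the pairs
`(n, m)` with `|a ^ n - b ^ m| ≤ x` is NOT `(log x) ^ 2 / (log a log b) + O(log x)` has measure zero for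
the Hausdorff measure with the gauge function `(log (1 / r)) ^ (-s)`, for every `s > 2`. -/
theorem result (b : ℝ) (hb : 1 < b) (s : ℝ) (hs : 2 < s) :
    Measure.mkMetric (gauge s) {a : ℝ | 1 < a ∧ ¬ Asymptotic a b} = 0 := by
  have hlb : 0 < Real.log b := Real.log_pos hb
  have hg : gauge s = Pool.Agent.Q43.LD.gauge s := rfl
  have hs0 : 0 < s := by linarith
  -- the good bases
  have hgood : ∀ a : ℝ, 1 < a → Irrational (Real.log a / Real.log b) →
      (Pool.Agent.H491R3.PE.SS a b).Finite → Asymptotic a b := by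
    intro a ha hirr hfin
    have hSX : ∀ x, Pool.Agent.H491R3.PE.SX a b x ⊆ Pool.Agent.H491R3.PE.SS a b := fun x p hp => hp.1
    obtain ⟨C, hC⟩ := Pool.Agent.H491R3.PE.countS ha hb hirr fun x => hfin.subset (hSX x)
    set K : ℝ := ((Pool.Agent.H491R3.PE.SS a b).ncard : ℝ) with hK
    have hK0 : 0 ≤ K := Nat.cast_nonneg _
    have hl2 : 0 < Real.log 2 := Real.log_pos (by norm_num)
    refine ⟨C + K / Real.log 2, fun x hx => ?_⟩
    obtain ⟨h1, h2⟩ := hC x hx
    refine ⟨h1, ?_⟩
    have h3 : ((Pool.Agent.H491R3.PE.SX a b x).ncard : ℝ) ≤ K := by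
      rw [hK]
      exact_mod_cast Set.ncard_le_ncard (hSX x) hfin
    have h4 : (0 : ℝ) ≤ ((Pool.Agent.H491R3.PE.SX a b x).ncard : ℝ) := Nat.cast_nonneg _
    have h5 : K ≤ K / Real.log 2 * Real.log x := by
      have h6 : Real.log 2 ≤ Real.log x := Real.log_le_log (by norm_num) hx
      calc K = K / Real.log 2 * Real.log 2 := by field_simp
        _ ≤ _ := by gcongr
    have h7 := abs_le.1 h2
    have h8 : |(((pairs a b x).ncard : ℝ)) - Real.log x ^ 2 / (Real.log a * Real.log b)| ≤
        C * Real.log x + K := by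
      have e : ((pairs a b x).ncard : ℝ) = ((Pool.Agent.H491R3.PE.NS a b x).ncard : ℝ) := rfl
      rw [e, abs_le]
      constructor <;> linarith [h7.1, h7.2]
    calc _ ≤ C * Real.log x + K := h8
      _ ≤ (C + K / Real.log 2) * Real.log x := by rw [add_mul]; linarith
  -- the rational bases
  have hrat : {a : ℝ | 1 < a ∧ ¬ Irrational (Real.log a / Real.log b)}.Countable := by
    refine (Set.countable_range (fun q : ℚ => Real.exp (q * Real.log b))).mono ?_
    rintro a ⟨ha, hq⟩
    rw [Irrational, not_not] at hq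
    obtain ⟨q, hq⟩ := hq
    refine ⟨q, ?_⟩
    show Real.exp (q * Real.log b) = a
    rw [hq, div_mul_cancel₀ _ hlb.ne', Real.exp_log (by linarith)]
  have hcount : Measure.mkMetric (gauge s) {a : ℝ | 1 < a ∧ ¬ Irrational (Real.log a / Real.log b)} = 0 := by
    rw [← Set.biUnion_of_singleton {a : ℝ | 1 < a ∧ ¬ Irrational (Real.log a / Real.log b)},
      measure_biUnion_null_iff hrat]
    intro a _
    have h1 := Pool.Agent.Q43.LD.hcg (X := ℝ) (m := gauge s) (fun _ : ℕ => ({a} : Set ℝ)) ?_ ?_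
    · refine measure_mono_null ?_ h1
      rintro c rfl
      show {i : ℕ | c ∈ ({c} : Set ℝ)}.Infinite
      simp [Set.infinite_univ]
    · have : gauge s (Metric.ediam ({a} : Set ℝ)) = 0 := by
        rw [Metric.ediam_singleton]
        unfold gauge
        rw [ENNReal.toReal_zero, inv_zero, Real.log_zero, inv_zero, Real.zero_rpow hs0.ne',
          ENNReal.ofReal_zero]
      simp only [this, tsum_zero]
      exact ENNReal.zero_ne_top
    · simp
  have hsub : {a : ℝ | 1 < a ∧ ¬ Asymptotic a b} ⊆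
      {a : ℝ | 1 < a ∧ ¬ Irrational (Real.log a / Real.log b)} ∪
      ⋃ k : ℕ, {a : ℝ | 1 + 1 / ((k : ℝ) + 1) ≤ a ∧ a ≤ (k : ℝ) + 3 ∧
        (Pool.Agent.H491R3.PE.SS a b).Infinite} := by
    rintro a ⟨ha, hn⟩
    by_cases hirr : Irrational (Real.log a / Real.log b)
    · right
      rw [Set.mem_iUnion]
      obtain ⟨k1, hk1⟩ := exists_nat_one_div_lt (show 0 < a - 1 by linarith)
      obtain ⟨k2, hk2⟩ := exists_nat_ge a
      refine ⟨k1 + k2, ?_, ?_, fun hfin => hn (hgood a ha hirr hfin)⟩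
      · have h2 : 1 / (((k1 + k2 : ℕ) : ℝ) + 1) ≤ 1 / ((k1 : ℝ) + 1) := by
          apply one_div_le_one_div_of_le (by positivity)
          push_cast
          have : (0 : ℝ) ≤ k2 := Nat.cast_nonneg k2
          linarith
        linarith
      · push_cast
        have : (0 : ℝ) ≤ k1 := Nat.cast_nonneg k1
        linarith
    · exact Or.inl ⟨ha, hirr⟩
  refine measure_mono_null hsub ?_
  rw [measure_union_null_iff, measure_iUnion_null_iff]
  refine ⟨hcount, fun k => ?_⟩
  have hk : (0 : ℝ) < 1 / ((k : ℝ) + 1) := by positivity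
  have hk1 : 1 / ((k : ℝ) + 1) ≤ 1 := by
    rw [div_le_one (by positivity)]
    have : (0 : ℝ) ≤ k := Nat.cast_nonneg k
    linarith
  have hk2 : (0 : ℝ) ≤ k := Nat.cast_nonneg k
  exact Pool.Agent.Q43.LD.window hb (by linarith) (by linarith) hs

end Pool.Agent.Results.MP_606be1_nt.AllBasesButLogDimensionTwo
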