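import Mathlib
import Pool.Agent.Q21.AW.HC

set_option autoImplicit false

/-! # The asymptotic for near-coincidences, for all dilates outside a set of Hausdorff dimension zero

`N_c(x)` is the number of pairs `(n, m)` of natural numbers with `|c π ^ n - e ^ m| ≤ x`; the question is
`N_1(x) ~ (log x)² / log π`.  We show that `N_c(x) = (log x)² / log π + O(log x)` for all `c > 0` outside a
set of Hausdorff dimension zero, nothing being known about the irrationality of `log π`; and more generally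
that, for arbitrary sequences `a i, b i > 1`, `r i > 0` the number of pairs with
`|r i c (a i) ^ n - (b i) ^ m| ≤ x` is `(log x)² / (log (a i) log (b i)) + O(log x)`, for all `i` and all
`c > 0` outside one set of Hausdorff dimension zero. -/

namespace Pool.Agent.Results.MP_606be1_nt.DilatesDimensionZero

open Real Filter MeasureTheory

/-- The pairs of natural numbers `(n, m)` with `|c a ^ n - b ^ m| ≤ x`. -/
def pairs (c a b x : ℝ) : Set (ℕ × ℕ) := {p | |c * a ^ p.1 - b ^ p.2| ≤ x}

/-- The number of these pairs is `(log x) ^ 2 / (log a log b)`, with an error `O(log x)`. -/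
def Asymptotic (c a b : ℝ) : Prop :=
  ∃ C : ℝ, ∀ x : ℝ, 2 ≤ x → (pairs c a b x).Finite ∧
    |((pairs c a b x).ncard : ℝ) - log x ^ 2 / (log a * log b)| ≤ C * log x

section

/-- the exceptional set -/
def Bad (r a b : ℝ) : Set ℝ :=
  {c : ℝ | 0 < c ∧ {n : ℕ | ∃ m : ℕ, |r * c * a ^ n - b ^ m| ≤ (√a) ^ n}.Infinite}

lemma bad_null (r a b : ℝ) (hr : 0 < r) (ha : 1 < a) (hb : 1 < b) (s : ℝ) (hs : 0 < s) :
    μH[s] (Bad r a b) = 0 := by
  have hq1 : 1 < √a := by
    rw [show (1 : ℝ) = √1 by simp]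
    exact Real.sqrt_lt_sqrt (by norm_num) ha
  have hq0 : 0 < √a := by linarith
  have hsq : √a * √a = a := Real.mul_self_sqrt (by linarith)
  have hlb : 0 < log b := log_pos hb
  have key : ∀ T : ℕ, μH[s] {c : ℝ | 0 < c ∧ c ≤ T ∧
      {n : ℕ | ∃ m : ℕ, |r * c * a ^ n - b ^ m| ≤ (√a) ^ n}.Infinite} = 0 := by
    intro T
    -- the number of values of `m`
    obtain ⟨W, hW⟩ : ∃ W : ℝ, W = log (r * T + 1) / log b + log a / log b + 1 := ⟨_, rfl⟩
    have hT0 : (0 : ℝ) ≤ T := Nat.cast_nonneg _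
    have hrT : 0 ≤ r * T := by positivity
    have hW1 : 1 ≤ W := by
      rw [hW]
      have h1 : 0 ≤ log (r * T + 1) := log_nonneg (by linarith)
      have h2 : 0 ≤ log a := log_nonneg ha.le
      have : 0 ≤ log (r * T + 1) / log b := by positivity
      have : 0 ≤ log a / log b := by positivity
      linarith
    set M : ℕ → ℕ := fun n => ⌊W * (n + 1)⌋₊ + 1 with hM
    have hMle : ∀ n : ℕ, (M n : ℝ) ≤ 2 * W * (n + 1) := by
      intro n
      have h1 : (⌊W * ((n : ℝ) + 1)⌋₊ : ℝ) ≤ W * (n + 1) := Nat.floor_le (by positivity)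
      have h2 : (1 : ℝ) ≤ W * (n + 1) := by
        have : (0 : ℝ) ≤ n := Nat.cast_nonneg _
        nlinarith
      simp only [hM]
      push_cast
      linarith
    have hm : ∀ (c : ℝ) (n m : ℕ), 0 < c → c ≤ T → |r * c * a ^ n - b ^ m| ≤ (√a) ^ n → m < M n := by
      intro c n m hc hcT h
      have h1 : b ^ m ≤ (r * T + 1) * a ^ n := by
        have h2 := (abs_le.1 h).1
        have h3 : (√a) ^ n ≤ a ^ n := by
          refine pow_le_pow_left₀ hq0.le ?_ n
          nlinarith
        have h4 : r * c * a ^ n ≤ r * T * a ^ n := by gcongr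
        nlinarith
      have h2 : (m : ℝ) * log b ≤ log (r * T + 1) + n * log a := by
        rw [← Real.log_pow, ← Real.log_pow, ← Real.log_mul (by positivity) (by positivity)]
        exact Real.log_le_log (by positivity) h1
      have h3 : (m : ℝ) ≤ W * (n + 1) := by
        have h4 : (m : ℝ) ≤ (log (r * T + 1) + n * log a) / log b := by
          rw [le_div_iff₀ hlb]
          exact h2
        have h5 : (0 : ℝ) ≤ n := Nat.cast_nonneg _
        have h6 : 0 ≤ log (r * T + 1) / log b := div_nonneg (log_nonneg (by linarith)) hlb.le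
        have h7 : 0 ≤ log a / log b := div_nonneg (log_nonneg ha.le) hlb.le
        have h8 : (log (r * T + 1) + n * log a) / log b =
            log (r * T + 1) / log b + n * (log a / log b) := by ring
        rw [h8] at h4
        rw [hW]
        nlinarith
      simp only [hM]
      exact Nat.lt_succ_of_le (Nat.le_floor h3)
    have h1 := Pool.Agent.Q21.AW.hc (X := ℝ) (ι := Σ n : ℕ, Fin (M n)) hs
      (fun p => {c : ℝ | |r * c * a ^ p.1 - b ^ (p.2 : ℕ)| ≤ (√a) ^ p.1}) ?_
    · refine measure_mono_null ?_ h1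
      rintro c ⟨hc, hcT, hinf⟩
      have h2 := hinf.to_subtype
      choose g hg using fun n : {n : ℕ | ∃ m : ℕ, |r * c * a ^ n - b ^ m| ≤ (√a) ^ n} => n.2
      refine Set.infinite_of_injective_forall_mem
        (f := fun n : {n : ℕ | ∃ m : ℕ, |r * c * a ^ n - b ^ m| ≤ (√a) ^ n} =>
          (⟨n.1, ⟨g n, hm c n.1 (g n) hc hcT (hg n)⟩⟩ : Σ n : ℕ, Fin (M n))) ?_ ?_
      · intro x y hxy
        exact Subtype.ext (congrArg Sigma.fst hxy)
      · intro n
        exact hg n
    · -- the sum of the diameters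
      have hq2 : 0 < (√a)⁻¹ := by positivity
      have hbd : ∀ p : (Σ n : ℕ, Fin (M n)), (Metric.ediam {c : ℝ |
          |r * c * a ^ p.1 - b ^ (p.2 : ℕ)| ≤ (√a) ^ p.1}) ^ s ≤
            ENNReal.ofReal ((2 / r) ^ s * (((√a)⁻¹) ^ s) ^ p.1) := by
        rintro ⟨n, m⟩
        have h2 : {c : ℝ | |r * c * a ^ n - b ^ (m : ℕ)| ≤ (√a) ^ n} ⊆
            Metric.closedBall (b ^ (m : ℕ) / (r * a ^ n)) (((√a)⁻¹) ^ n / r) := by
          intro c hc
          have hc' : |r * c * a ^ n - b ^ (m : ℕ)| ≤ (√a) ^ n := hc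
          have han : 0 < a ^ n := by positivity
          rw [Metric.mem_closedBall, Real.dist_eq]
          have e1 : c - b ^ (m : ℕ) / (r * a ^ n) = (r * c * a ^ n - b ^ (m : ℕ)) / (r * a ^ n) := by
            field_simp
          rw [e1, abs_div, abs_of_pos (by positivity : 0 < r * a ^ n), div_le_div_iff₀
            (by positivity) hr]
          have e2 : ((√a)⁻¹) ^ n * (r * a ^ n) = (√a) ^ n * r := by
            have : a ^ n = (√a) ^ n * (√a) ^ n := by rw [← mul_pow, hsq]
            rw [this, inv_pow]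
            field_simp
          rw [e2]
          exact mul_le_mul_of_nonneg_right hc' hr.le
        have h3 : Metric.ediam {c : ℝ | |r * c * a ^ n - b ^ (m : ℕ)| ≤ (√a) ^ n} ≤
            ENNReal.ofReal (2 / r * ((√a)⁻¹) ^ n) := by
          refine (Metric.ediam_mono h2).trans ?_
          rw [Real.closedBall_eq_Icc, Real.ediam_Icc]
          refine ENNReal.ofReal_le_ofReal (le_of_eq ?_)
          ring
        calc _ ≤ (ENNReal.ofReal (2 / r * ((√a)⁻¹) ^ n)) ^ s := ENNReal.rpow_le_rpow h3 hs.le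
          _ = ENNReal.ofReal ((2 / r * ((√a)⁻¹) ^ n) ^ s) :=
              ENNReal.ofReal_rpow_of_nonneg (by positivity) hs.le
          _ = _ := by
              rw [Real.mul_rpow (by positivity) (by positivity), ← Real.rpow_natCast,
                ← Real.rpow_natCast, ← Real.rpow_mul hq2.le, ← Real.rpow_mul hq2.le, mul_comm s]
      have hρ0 : 0 < ((√a)⁻¹) ^ s := by positivity
      have hρ1 : ((√a)⁻¹) ^ s < 1 :=
        Real.rpow_lt_one hq2.le (inv_lt_one_of_one_lt₀ hq1) hs
      have hsum : Summable (fun n : ℕ => (2 * W * ((n : ℝ) + 1)) * ((2 / r) ^ s * (((√a)⁻¹) ^ s) ^ n)) := by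
        have h4 := summable_pow_mul_geometric_of_norm_lt_one 1
          (r := ((√a)⁻¹) ^ s) (by rw [Real.norm_eq_abs, abs_of_pos hρ0]; exact hρ1)
        have h5 := summable_geometric_of_lt_one hρ0.le hρ1
        have h6 := (h4.add h5).mul_left (2 * W * (2 / r) ^ s)
        refine h6.congr fun n => ?_
        rw [pow_one]
        ring
      refine ne_top_of_le_ne_top (b := ENNReal.ofReal (∑' n : ℕ, (2 * W * ((n : ℝ) + 1)) *
        ((2 / r) ^ s * (((√a)⁻¹) ^ s) ^ n))) ENNReal.ofReal_ne_top ?_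
      rw [ENNReal.ofReal_tsum_of_nonneg (fun n => by positivity) hsum]
      refine (ENNReal.tsum_le_tsum hbd).trans ?_
      rw [ENNReal.tsum_sigma' (fun p : (Σ n : ℕ, Fin (M n)) =>
        ENNReal.ofReal ((2 / r) ^ s * (((√a)⁻¹) ^ s) ^ p.1))]
      refine ENNReal.tsum_le_tsum fun n => ?_
      show ∑' _ : Fin (M n), ENNReal.ofReal ((2 / r) ^ s * (((√a)⁻¹) ^ s) ^ n) ≤ _
      rw [ENNReal.tsum_const, ENNReal.ofReal_mul (p := 2 * W * ((n : ℝ) + 1)) (by positivity)]
      have h7 : ((M n : ℕ) : ENNReal) = ENNReal.ofReal (M n : ℝ) := (ENNReal.ofReal_natCast _).symm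
      have h8 : ((ENat.card (Fin (M n)) : ℕ∞) : ENNReal) ≤ ENNReal.ofReal (2 * W * ((n : ℝ) + 1)) := by
        rw [ENat.card_eq_coe_fintype_card, Fintype.card_fin]
        simp only [ENat.toENNReal_coe]
        rw [h7]
        exact ENNReal.ofReal_le_ofReal (hMle n)
      exact mul_le_mul' h8 le_rfl
  have hsub : Bad r a b ⊆ ⋃ T : ℕ, {c : ℝ | 0 < c ∧ c ≤ T ∧
      {n : ℕ | ∃ m : ℕ, |r * c * a ^ n - b ^ m| ≤ (√a) ^ n}.Infinite} := by
    rintro c ⟨hc, hinf⟩
    obtain ⟨T, hT⟩ := exists_nat_ge c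
    exact Set.mem_iUnion.2 ⟨T, hc, hT, hinf⟩
  exact measure_mono_null hsub (measure_iUnion_null key)

/-- the number of natural numbers `≤ u` -/
lemma cnt_le {u : ℝ} (hu : 0 ≤ u) (R : ℕ) (P : ℕ → Prop) [DecidablePred P]
    (h : ∀ n < R, P n → (n : ℝ) ≤ u) : (((Finset.range R).filter P).card : ℝ) ≤ u + 1 := by
  have h1 : (Finset.range R).filter P ⊆ Finset.range (⌊u⌋₊ + 1) := by
    intro n hn
    rw [Finset.mem_filter, Finset.mem_range] at hn
    rw [Finset.mem_range]
    exact Nat.lt_succ_of_le (Nat.le_floor (h n hn.1 hn.2))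
  have h2 := Finset.card_le_card h1
  rw [Finset.card_range] at h2
  have h3 : (((Finset.range R).filter P).card : ℝ) ≤ ((⌊u⌋₊ + 1 : ℕ) : ℝ) := by exact_mod_cast h2
  push_cast at h3
  linarith [Nat.floor_le hu]

/-- the number of natural numbers in an interval of length `w` -/
lemma cnt_int {u w : ℝ} (hw : 0 ≤ w) (R : ℕ) (P : ℕ → Prop) [DecidablePred P]
    (h : ∀ n < R, P n → u ≤ (n : ℝ) ∧ (n : ℝ) ≤ u + w) :
    (((Finset.range R).filter P).card : ℝ) ≤ w + 1 := by
  rcases ((Finset.range R).filter P).eq_empty_or_nonempty with h0 | h0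
  · rw [h0, Finset.card_empty, Nat.cast_zero]
    linarith
  obtain ⟨k, hk⟩ : ∃ k, k = ((Finset.range R).filter P).min' h0 := ⟨_, rfl⟩
  have hkm : k ∈ (Finset.range R).filter P := by
    rw [hk]
    exact Finset.min'_mem _ _
  rw [Finset.mem_filter, Finset.mem_range] at hkm
  have hk1 := (h k hkm.1 hkm.2).1
  have h1 : (Finset.range R).filter P ⊆ Finset.Icc k (k + ⌊w⌋₊) := by
    intro n hn
    have hkn : k ≤ n := by
      rw [hk]
      exact Finset.min'_le _ _ hn
    rw [Finset.mem_filter, Finset.mem_range] at hn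
    rw [Finset.mem_Icc]
    refine ⟨hkn, ?_⟩
    have h2 : ((n - k : ℕ) : ℝ) ≤ w := by
      rw [Nat.cast_sub hkn]
      linarith [(h n hn.1 hn.2).2]
    have := Nat.le_floor h2
    omega
  have h2 := Finset.card_le_card h1
  rw [Nat.card_Icc] at h2
  have h3 : (((Finset.range R).filter P).card : ℝ) ≤ ((⌊w⌋₊ + 1 : ℕ) : ℝ) := by
    exact_mod_cast (by omega : ((Finset.range R).filter P).card ≤ ⌊w⌋₊ + 1)
  push_cast at h3
  linarith [Nat.floor_le hw]

lemma cnt_ge {u : ℝ} (R : ℕ) (hR : u < R) (P : ℕ → Prop) [DecidablePred P]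
    (h : ∀ n : ℕ, (n : ℝ) ≤ u → P n) : u ≤ (((Finset.range R).filter P).card : ℝ) := by
  rcases lt_or_ge u 0 with hu | hu
  · exact hu.le.trans (Nat.cast_nonneg _)
  have h1 : Finset.range (⌊u⌋₊ + 1) ⊆ (Finset.range R).filter P := by
    intro n hn
    rw [Finset.mem_range] at hn
    have h2 : (n : ℝ) ≤ u := (Nat.le_floor_iff hu).1 (Nat.lt_succ_iff.1 hn)
    rw [Finset.mem_filter, Finset.mem_range]
    exact ⟨by exact_mod_cast lt_of_le_of_lt h2 hR, h n h2⟩
  have h2 := Finset.card_le_card h1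
  rw [Finset.card_range] at h2
  have h3 : ((⌊u⌋₊ + 1 : ℕ) : ℝ) ≤ (((Finset.range R).filter P).card : ℝ) := by exact_mod_cast h2
  push_cast at h3
  linarith [Nat.lt_floor_add_one u]

/-- the counting -/
lemma count {κ a b : ℝ} (hκ : 0 < κ) (ha : 1 < a) (hb : 1 < b) (n₀ : ℕ)
    (hn : ∀ n : ℕ, n₀ ≤ n → ∀ m : ℕ, (√a) ^ n < |κ * a ^ n - b ^ m|) : Asymptotic κ a b := by
  classical
  have hla : 0 < log a := log_pos ha
  have hlb : 0 < log b := log_pos hb
  have ha0 : 0 < a := by linarith
  have hb0 : 0 < b := by linarith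
  have hl2 : 0 < log 2 := log_pos (by norm_num)
  have hl3 : 0 < log 3 := log_pos (by norm_num)
  obtain ⟨A, hA⟩ : ∃ A, A = (log a)⁻¹ := ⟨_, rfl⟩
  obtain ⟨B, hB⟩ : ∃ B, B = (log b)⁻¹ := ⟨_, rfl⟩
  have hA0 : 0 < A := by rw [hA]; positivity
  have hB0 : 0 < B := by rw [hB]; positivity
  obtain ⟨K, hK⟩ : ∃ K, K = |log κ| := ⟨_, rfl⟩
  have hK0 : 0 ≤ K := by rw [hK]; positivity
  have hKl : log κ ≤ K := by rw [hK]; exact le_abs_self _
  have hKl' : - K ≤ log κ := by rw [hK]; exact neg_abs_le _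
  -- taking logarithms
  have lg : ∀ {c y : ℝ} {k : ℕ}, 1 < c → 0 < y → c ^ k ≤ y → (k : ℝ) ≤ (log c)⁻¹ * log y := by
    intro c y k hc hy h
    have h1 : (k : ℝ) * log c ≤ log y := by
      rw [← Real.log_pow]
      exact Real.log_le_log (by positivity) h
    rw [inv_mul_eq_div, le_div_iff₀ (log_pos hc)]
    exact h1
  have lg' : ∀ {c y : ℝ} {k : ℕ}, 1 < c → 0 < y → y ≤ c ^ k → (log c)⁻¹ * log y ≤ (k : ℝ) := by
    intro c y k hc hy h
    have h1 : log y ≤ (k : ℝ) * log c := by
      rw [← Real.log_pow]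
      exact Real.log_le_log hy h
    rw [inv_mul_eq_div, div_le_iff₀ (log_pos hc)]
    exact h1
  have gl : ∀ {c y : ℝ} {k : ℕ}, 1 < c → 0 < y → (k : ℝ) ≤ (log c)⁻¹ * log y → c ^ k ≤ y := by
    intro c y k hc hy h
    rw [inv_mul_eq_div, le_div_iff₀ (log_pos hc), ← Real.log_pow] at h
    exact (Real.log_le_log_iff (by positivity) hy).1 h
  obtain ⟨P, hP⟩ : ∃ P, P = A * K + 1 := ⟨_, rfl⟩
  obtain ⟨Q, hQ⟩ : ∃ Q, Q = B * log 2 + 1 := ⟨_, rfl⟩
  obtain ⟨S, hS⟩ : ∃ S, S = A * log 2 + 1 := ⟨_, rfl⟩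
  obtain ⟨T, hT⟩ : ∃ T, T = B * log 3 + 1 := ⟨_, rfl⟩
  have hP0 : 0 < P := by rw [hP]; positivity
  have hQ0 : 0 < Q := by rw [hQ]; positivity
  have hS0 : 0 < S := by rw [hS]; positivity
  have hT0 : 0 < T := by rw [hT]; positivity
  refine ⟨A * Q + P * B + S * B + 2 * A * T + (P * Q + S * T + (n₀ + 1) * T) / log 2 + A * B * K,
    fun x hx => ?_⟩
  have hx0 : 0 < x := by linarith
  obtain ⟨L, hL⟩ : ∃ L, L = log x := ⟨_, rfl⟩
  have hL2 : log 2 ≤ L := by
    rw [hL]
    exact Real.log_le_log (by norm_num) hx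
  have hL0 : 0 < L := by linarith
  obtain ⟨R, hR⟩ : ∃ R : ℕ, R = n₀ + (⌊2 * (A * L)⌋₊ + 1) := ⟨_, rfl⟩
  obtain ⟨R', hR'⟩ : ∃ R' : ℕ, B * log (κ * a ^ R + x) < R' := exists_nat_gt _
  have hRle : (R : ℝ) ≤ n₀ + 2 * (A * L) + 1 := by
    have := Nat.floor_le (by positivity : 0 ≤ 2 * (A * L))
    rw [hR]
    push_cast
    linarith
  -- the bound for `n`
  have hnR : ∀ p ∈ pairs κ a b x, p.1 < R := by
    rintro ⟨n, m⟩ hp
    have hp' : |κ * a ^ n - b ^ m| ≤ x := hp
    rcases lt_or_ge n n₀ with h | h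
    · show n < R
      omega
    · have h1 : (√a) ^ n < x := lt_of_lt_of_le (hn n h m) hp'
      have h2 : a ^ n ≤ x ^ 2 := by
        have : a ^ n = ((√a) ^ n) ^ 2 := by
          rw [← pow_mul, mul_comm, pow_mul, Real.sq_sqrt ha0.le]
        rw [this]
        exact pow_le_pow_left₀ (by positivity) h1.le 2
      have h3 := lg ha (by positivity) h2
      rw [Real.log_pow, ← hA, ← hL] at h3
      have h4 : (n : ℝ) ≤ 2 * (A * L) := by
        push_cast at h3
        linarith
      have := Nat.le_floor h4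
      show n < R
      omega
  have hmR : ∀ n m : ℕ, n < R → |κ * a ^ n - b ^ m| ≤ x → m < R' := by
    intro n m h1 h2
    have h3 : a ^ n ≤ a ^ R := pow_le_pow_right₀ ha.le h1.le
    have h4 : b ^ m ≤ κ * a ^ R + x := by
      have := (abs_le.1 h2).1
      nlinarith
    have h5 := lg hb (by positivity) h4
    rw [← hB] at h5
    exact_mod_cast lt_of_le_of_lt h5 hR'
  -- the pairs as a finite set
  obtain ⟨F, hF⟩ : ∃ F : Finset (ℕ × ℕ), F = (Finset.range R ×ˢ Finset.range R').filter
    (fun p => |κ * a ^ p.1 - b ^ p.2| ≤ x) := ⟨_, rfl⟩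
  have hpF : pairs κ a b x = (F : Set (ℕ × ℕ)) := by
    ext ⟨n, m⟩
    rw [hF, Finset.coe_filter]
    simp only [Finset.mem_product, Finset.mem_range]
    constructor
    · intro h
      have h1 := hnR _ h
      exact ⟨⟨h1, hmR n m h1 h⟩, h⟩
    · exact fun h => h.2
  have hfin : (pairs κ a b x).Finite := by
    rw [hpF]
    exact Finset.finite_toSet _
  refine ⟨hfin, ?_⟩
  obtain ⟨G, hG⟩ : ∃ G : ℕ → Finset ℕ, G = fun n => (Finset.range R').filter
    (fun m => |κ * a ^ n - b ^ m| ≤ x) := ⟨_, rfl⟩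
  have hcard : (pairs κ a b x).ncard = ∑ n ∈ Finset.range R, (G n).card := by
    rw [hpF, Set.ncard_coe_finset, hF, Finset.card_filter, Finset.sum_product]
    refine Finset.sum_congr rfl fun n _ => ?_
    rw [hG, Finset.card_filter]
  -- the three ranges of `n`
  have hG1 : ∀ n : ℕ, κ * a ^ n ≤ x → ((G n).card : ℝ) ≤ B * L + Q := by
    intro n h
    have h0 : 0 < κ * a ^ n := by positivity
    have h1 : ((G n).card : ℝ) ≤ B * log (2 * x) + 1 := by
      rw [hG]
      refine cnt_le ?_ R' _ fun m _ hm => ?_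
      · have : 0 ≤ log (2 * x) := log_nonneg (by linarith)
        positivity
      · rw [hB]
        refine lg hb (by positivity) ?_
        have := (abs_le.1 hm).1
        linarith
    rw [Real.log_mul (by norm_num) (by positivity), ← hL] at h1
    rw [hQ]
    linarith
  have hG1' : ∀ n : ℕ, n < R → κ * a ^ n ≤ x → B * L ≤ ((G n).card : ℝ) := by
    intro n hnn h
    have h0 : 0 < κ * a ^ n := by positivity
    rw [hG]
    have h7 : ∀ m : ℕ, (m : ℝ) ≤ B * L → |κ * a ^ n - b ^ m| ≤ x := by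
      intro m hm
      rw [hB, hL] at hm
      have h2 := gl hb hx0 hm
      have h3 : 0 < b ^ m := by positivity
      rw [abs_le]
      constructor <;> linarith
    refine cnt_ge R' ?_ _ h7
    refine lt_of_le_of_lt ?_ hR'
    refine mul_le_mul_of_nonneg_left ?_ hB0.le
    rw [hL]
    refine Real.log_le_log hx0 ?_
    have : 0 < κ * a ^ R := by positivity
    linarith
  have hG2 : ∀ n : ℕ, κ * a ^ n ≤ 2 * x → ((G n).card : ℝ) ≤ B * L + T := by
    intro n h
    have h0 : 0 < κ * a ^ n := by positivity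
    have h1 : ((G n).card : ℝ) ≤ B * log (3 * x) + 1 := by
      rw [hG]
      refine cnt_le ?_ R' _ fun m _ hm => ?_
      · have : 0 ≤ log (3 * x) := log_nonneg (by linarith)
        positivity
      · rw [hB]
        refine lg hb (by positivity) ?_
        have := (abs_le.1 hm).1
        linarith
    rw [Real.log_mul (by norm_num) (by positivity), ← hL] at h1
    rw [hT]
    linarith
  have hG3 : ∀ n : ℕ, 2 * x < κ * a ^ n → ((G n).card : ℝ) ≤ T := by
    intro n h
    have h0 : 0 < κ * a ^ n := by positivity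
    rw [hT, hG]
    refine cnt_int (u := B * log (κ * a ^ n / 2)) (by positivity) R' _ fun m _ hm => ?_
    have h1 := abs_le.1 hm
    constructor
    · rw [hB]
      exact lg' hb (by positivity) (by linarith)
    · have h2 : b ^ m ≤ 3 * (κ * a ^ n / 2) := by linarith
      have h3 := lg hb (by positivity) h2
      rw [Real.log_mul (by norm_num) (by positivity), ← hB] at h3
      linarith
  -- the number of `n` in the first two ranges
  have hN1 : (((Finset.range R).filter (fun n => κ * a ^ n ≤ x)).card : ℝ) ≤ A * L + P := by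
    have h1 : (((Finset.range R).filter (fun n => κ * a ^ n ≤ x)).card : ℝ) ≤ A * (L + K) + 1 := by
      refine cnt_le (by positivity) R _ fun n _ h => ?_
      have h2 : a ^ n ≤ x / κ := by
        rw [le_div_iff₀ hκ]
        linarith
      have h3 := lg ha (by positivity) h2
      rw [Real.log_div (by positivity) (by positivity), ← hA, ← hL] at h3
      refine h3.trans (mul_le_mul_of_nonneg_left ?_ hA0.le)
      linarith
    rw [hP]
    linarith
  have hN1' : A * (L - K) ≤ (((Finset.range R).filter (fun n => κ * a ^ n ≤ x)).card : ℝ) := by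
    refine cnt_ge R ?_ _ fun n h => ?_
    · have h1 : A * (L - K) ≤ 2 * (A * L) := by
        have : 0 ≤ A * K := by positivity
        have : 0 ≤ A * L := by positivity
        nlinarith
      have h2 := Nat.lt_floor_add_one (2 * (A * L))
      rw [hR]
      push_cast
      have : (0 : ℝ) ≤ n₀ := Nat.cast_nonneg _
      linarith
    · have h1 : (n : ℝ) ≤ (log a)⁻¹ * log (x / κ) := by
        rw [Real.log_div (by positivity) (by positivity), ← hA, ← hL]
        refine h.trans (mul_le_mul_of_nonneg_left ?_ hA0.le)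
        linarith
      have h2 := gl ha (by positivity) h1
      rw [le_div_iff₀ hκ] at h2
      linarith
  have hN2 : (((Finset.range R).filter (fun n => x < κ * a ^ n ∧ κ * a ^ n ≤ 2 * x)).card : ℝ) ≤ S := by
    rw [hS]
    refine cnt_int (u := A * log (x / κ)) (by positivity) R _ fun n _ h => ?_
    constructor
    · rw [hA]
      refine lg' ha (by positivity) ?_
      rw [div_le_iff₀ hκ]
      linarith [h.1]
    · have h2 : a ^ n ≤ 2 * (x / κ) := by
        rw [← mul_div_assoc, le_div_iff₀ hκ]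
        linarith [h.2]
      have h3 := lg ha (by positivity) h2
      rw [Real.log_mul (by norm_num) (by positivity), ← hA] at h3
      linarith
  -- upper bound
  have hup : ((pairs κ a b x).ncard : ℝ) ≤ (A * L + P) * (B * L + Q) + S * (B * L + T) +
      (n₀ + 2 * (A * L) + 1) * T := by
    rw [hcard]
    push_cast
    have hpt : ∀ n ∈ Finset.range R, ((G n).card : ℝ) ≤
        (if κ * a ^ n ≤ x then B * L + Q else 0) +
        (if x < κ * a ^ n ∧ κ * a ^ n ≤ 2 * x then B * L + T else 0) + T := by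
      intro n _
      rcases le_or_gt (κ * a ^ n) x with h | h
      · rw [if_pos h, if_neg (by intro h'; linarith [h'.1])]
        linarith [hG1 n h]
      · rcases le_or_gt (κ * a ^ n) (2 * x) with h' | h'
        · rw [if_neg (by linarith), if_pos ⟨h, h'⟩]
          linarith [hG2 n h']
        · rw [if_neg (by linarith), if_neg (by intro h''; linarith [h''.2])]
          linarith [hG3 n h']
    refine (Finset.sum_le_sum hpt).trans ?_
    rw [Finset.sum_add_distrib, Finset.sum_add_distrib, ← Finset.sum_filter, ← Finset.sum_filter,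
      Finset.sum_const, Finset.sum_const, Finset.sum_const, nsmul_eq_mul, nsmul_eq_mul, nsmul_eq_mul,
      Finset.card_range]
    have e1 := mul_le_mul_of_nonneg_right hN1 (by positivity : 0 ≤ B * L + Q)
    have e2 := mul_le_mul_of_nonneg_right hN2 (by positivity : 0 ≤ B * L + T)
    have e3 := mul_le_mul_of_nonneg_right hRle hT0.le
    linarith
  -- lower bound
  have hlo : A * (L - K) * (B * L) ≤ ((pairs κ a b x).ncard : ℝ) := by
    rw [hcard]
    push_cast
    have hpt : ∀ n ∈ Finset.range R, (if κ * a ^ n ≤ x then B * L else 0) ≤ ((G n).card : ℝ) := by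
      intro n hnn
      rw [Finset.mem_range] at hnn
      split_ifs with h
      · exact hG1' n hnn h
      · positivity
    refine le_trans ?_ (Finset.sum_le_sum hpt)
    rw [← Finset.sum_filter, Finset.sum_const, nsmul_eq_mul]
    exact mul_le_mul_of_nonneg_right hN1' (by positivity)
  have hmain : log x ^ 2 / (log a * log b) = A * B * L ^ 2 := by
    rw [hA, hB, hL]
    field_simp
  rw [hmain, ← hL]
  have hconst : ∀ y : ℝ, 0 ≤ y → y ≤ y / log 2 * L := by
    intro y hy
    rw [div_mul_eq_mul_div, le_div_iff₀ hl2]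
    exact mul_le_mul_of_nonneg_left hL2 hy
  have hn0 : (0 : ℝ) ≤ n₀ := Nat.cast_nonneg _
  have hc1 := hconst (P * Q + S * T + (n₀ + 1) * T) (by positivity)
  have hAQ : 0 ≤ (A * Q + P * B + S * B + 2 * A * T) * L := by positivity
  have hABK : 0 ≤ A * B * K * L := by positivity
  have hc2 : 0 ≤ (P * Q + S * T + (n₀ + 1) * T) / log 2 * L := by positivity
  rw [abs_le]
  constructor
  · nlinarith
  · nlinarith

end

/-- Let `a i, b i > 1` and `r i > 0` be arbitrary. There is a set `E` of Hausdorff dimension zero such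
that, for all `c > 0` outside `E` and for all `i`, the number of pairs `(n, m)` of natural numbers with
`|r i c (a i) ^ n - (b i) ^ m| ≤ x` is finite and equal to
`(log x) ^ 2 / (log (a i) log (b i)) + O(log x)`. -/
theorem result (r a b : ℕ → ℝ) (hr : ∀ i, 0 < r i) (ha : ∀ i, 1 < a i) (hb : ∀ i, 1 < b i) :
    ∃ E : Set ℝ, dimH E = 0 ∧ ∀ c : ℝ, 0 < c → c ∉ E → ∀ i, Asymptotic (r i * c) (a i) (b i) := by
  refine ⟨⋃ i, Bad (r i) (a i) (b i), ?_, fun c hc hcE i => ?_⟩
  · rw [dimH_iUnion]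
    refine le_antisymm (iSup_le fun i => ?_) bot_le
    refine dimH_le fun d hd => ?_
    rcases eq_or_lt_of_le (show 0 ≤ d from bot_le) with h | h
    · rw [← h]
      simp
    · have h1 := bad_null (r i) (a i) (b i) (hr i) (ha i) (hb i) (d : ℝ) (by exact_mod_cast h)
      rw [h1] at hd
      exact absurd hd ENNReal.zero_ne_top
  · have h1 : c ∉ Bad (r i) (a i) (b i) := fun h => hcE (Set.mem_iUnion.2 ⟨i, h⟩)
    have h2 : {n : ℕ | ∃ m : ℕ, |r i * c * a i ^ n - b i ^ m| ≤ (√(a i)) ^ n}.Finite := by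
      by_contra h
      exact h1 ⟨hc, h⟩
    obtain ⟨n₀, hn₀⟩ := h2.bddAbove
    refine count (mul_pos (hr i) hc) (ha i) (hb i) (n₀ + 1) fun n hn m => ?_
    by_contra h
    have h3 := hn₀ (show n ∈ {n : ℕ | ∃ m : ℕ, |r i * c * a i ^ n - b i ^ m| ≤ (√(a i)) ^ n} from
      ⟨m, not_lt.1 h⟩)
    omega

end Pool.Agent.Results.MP_606be1_nt.DilatesDimensionZero
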