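import Mathlib

set_option autoImplicit false

/-!
# Near-coincidences of powers for generic bases
-/

namespace Pool.Agent.Results.MP_606be1_nt.IndependenceDoesNotSuffice

open Filter Topology
open scoped IntermediateField

/-- a countable set is avoided by residually many points -/
lemma avoid {X : Type*} [TopologicalSpace X] [T1Space X] [∀ x : X, (𝓝[≠] x).NeBot] {S : Set X}
    (hS : S.Countable) : ∀ᶠ x in residual X, x ∉ S := by
  have h : ∀ᶠ x in residual X, ∀ y ∈ S, x ≠ y := by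
    rw [eventually_countable_ball hS]
    intro y _
    exact residual_of_dense_open (isOpen_compl_singleton) (dense_compl_singleton y)
  filter_upwards [h] with x hx hxS
  exact hx x hxS rfl

/-- residually many points are transcendental over a countable field -/
lemma transc {K : Type*} [Field K] [CharZero K] [TopologicalSpace K] [T1Space K]
    [∀ x : K, (𝓝[≠] x).NeBot] (b : K) : ∀ᶠ a in residual K, Transcendental ℚ⟮b⟯ a := by
  have hc : Countable ℚ⟮b⟯ := by
    have h := IntermediateField.lift_cardinalMk_adjoin_le ℚ ({b} : Set K)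
    rw [← Cardinal.mk_le_aleph0_iff, ← Cardinal.lift_le_aleph0]
    refine h.trans ?_
    simp
  refine avoid (S := {x : K | IsAlgebraic ℚ⟮b⟯ x}) ?_
  exact Algebraic.countable _ _

/-- real bases: exact coincidences are dense -/
lemma dense_real {b : ℝ} (hb : 1 < b) {a0 : ℝ} (ha : 1 < a0) {U : Set ℝ} (hU : IsOpen U) (haU : a0 ∈ U)
    (N : ℕ) : ∃ a ∈ U, ∃ n m : ℕ, N ≤ n ∧ a ^ n = b ^ m := by
  have hlb : 0 < Real.log b := Real.log_pos hb
  have hla : 0 < Real.log a0 := Real.log_pos ha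
  have h1 : Tendsto (fun x : ℝ => (⌊Real.log a0 / Real.log b * x⌋₊ : ℝ) / x) atTop
      (𝓝 (Real.log a0 / Real.log b)) := tendsto_nat_floor_mul_div_atTop (by positivity)
  have h2 : Tendsto (fun n : ℕ => Real.exp ((⌊Real.log a0 / Real.log b * (n : ℝ)⌋₊ : ℝ) / n * Real.log b))
      atTop (𝓝 a0) := by
    have h3 := (h1.comp tendsto_natCast_atTop_atTop).mul_const (Real.log b)
    rw [div_mul_cancel₀ _ hlb.ne'] at h3
    have h4 := (Real.continuous_exp.tendsto _).comp h3
    rw [Real.exp_log (by linarith)] at h4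
    exact h4
  obtain ⟨n, hn1, hn2⟩ := ((h2.eventually (hU.mem_nhds haU)).and (eventually_ge_atTop (N + 1))).exists
  refine ⟨_, hn1, n, ⌊Real.log a0 / Real.log b * (n : ℝ)⌋₊, by omega, ?_⟩
  have hn0 : (n : ℝ) ≠ 0 := by
    have : n ≠ 0 := by omega
    exact_mod_cast this
  rw [← Real.exp_nat_mul]
  have e : (n : ℝ) * ((⌊Real.log a0 / Real.log b * (n : ℝ)⌋₊ : ℝ) / n * Real.log b) =
      (⌊Real.log a0 / Real.log b * (n : ℝ)⌋₊ : ℝ) * Real.log b := by
    field_simp
  rw [e, Real.exp_nat_mul, Real.exp_log (by linarith)]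

/-- complex bases: exact coincidences are dense -/
lemma dense_complex {β : ℂ} (hβ : 1 < ‖β‖) {α0 : ℂ} (ha : 1 < ‖α0‖) {U : Set ℂ} (hU : IsOpen U)
    (haU : α0 ∈ U) (N : ℕ) : ∃ α ∈ U, ∃ n m : ℕ, N ≤ n ∧ α ^ n = β ^ m := by
  have hβ0 : β ≠ 0 := by
    intro h
    rw [h, norm_zero] at hβ
    linarith
  have hα0 : α0 ≠ 0 := by
    intro h
    rw [h, norm_zero] at ha
    linarith
  have hlb : 0 < Real.log ‖β‖ := Real.log_pos hβ
  have hla : 0 < Real.log ‖α0‖ := Real.log_pos ha
  set t := Real.log ‖α0‖ / Real.log ‖β‖ with ht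
  set m : ℕ → ℕ := fun n => ⌊t * (n : ℝ)⌋₊ with hm
  set k : ℕ → ℤ := fun n => ⌊((n : ℝ) * (Complex.log α0).im - m n * (Complex.log β).im) / (2 * Real.pi)⌋
    with hk
  have h1 : Tendsto (fun n : ℕ => (m n : ℝ) / n) atTop (𝓝 t) :=
    (tendsto_nat_floor_mul_div_atTop (R := ℝ) (by positivity)).comp tendsto_natCast_atTop_atTop
  have h2 : Tendsto (fun n : ℕ => (m n : ℝ) / n * Real.log ‖β‖) atTop (𝓝 (Real.log ‖α0‖)) := by
    have h3 := h1.mul_const (Real.log ‖β‖)
    rwa [ht, div_mul_cancel₀ _ hlb.ne'] at h3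
  have hpi := Real.pi_pos
  have h3 : Tendsto (fun n : ℕ => ((m n : ℝ) * (Complex.log β).im + 2 * Real.pi * k n) / n) atTop
      (𝓝 (Complex.log α0).im) := by
    have h4 : Tendsto (fun n : ℕ => 2 * Real.pi / (n : ℝ)) atTop (𝓝 0) :=
      tendsto_const_div_atTop_nhds_zero_nat _
    rw [tendsto_iff_dist_tendsto_zero]
    refine squeeze_zero' (Eventually.of_forall fun _ => dist_nonneg) ?_ h4
    filter_upwards [eventually_gt_atTop 0] with n hn
    have hn0 : (0 : ℝ) < n := by exact_mod_cast hn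
    have h5 := Int.floor_le (((n : ℝ) * (Complex.log α0).im - m n * (Complex.log β).im) / (2 * Real.pi))
    have h6 := Int.lt_floor_add_one (((n : ℝ) * (Complex.log α0).im - m n * (Complex.log β).im) /
      (2 * Real.pi))
    rw [le_div_iff₀ (by positivity)] at h5
    rw [div_lt_iff₀ (by positivity)] at h6
    have h5' : (k n : ℝ) * (2 * Real.pi) ≤ (n : ℝ) * (Complex.log α0).im - m n * (Complex.log β).im := h5
    have h6' : (n : ℝ) * (Complex.log α0).im - m n * (Complex.log β).im < ((k n : ℝ) + 1) * (2 * Real.pi) := h6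
    rw [Real.dist_eq]
    have e : ((m n : ℝ) * (Complex.log β).im + 2 * Real.pi * k n) / n - (Complex.log α0).im =
        ((m n : ℝ) * (Complex.log β).im + 2 * Real.pi * k n - n * (Complex.log α0).im) / n := by
      field_simp
    rw [e, abs_div, abs_of_pos hn0]
    refine div_le_div_of_nonneg_right ?_ hn0.le
    rw [abs_le]
    constructor <;> nlinarith
  have h4 : Tendsto (fun n : ℕ => Complex.exp ((((m n : ℝ) / n * Real.log ‖β‖ : ℝ) : ℂ) +
      ((((m n : ℝ) * (Complex.log β).im + 2 * Real.pi * k n) / n : ℝ) : ℂ) * Complex.I)) atTop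
      (𝓝 α0) := by
    have h5 := ((Complex.continuous_ofReal.tendsto _).comp h2).add
      (((Complex.continuous_ofReal.tendsto _).comp h3).mul_const Complex.I)
    have h6 := (Complex.continuous_exp.tendsto _).comp h5
    have e : Complex.exp (((Real.log ‖α0‖ : ℝ) : ℂ) + (((Complex.log α0).im : ℝ) : ℂ) * Complex.I) = α0 := by
      have h7 : (((Real.log ‖α0‖ : ℝ) : ℂ) + (((Complex.log α0).im : ℝ) : ℂ) * Complex.I) =
          Complex.log α0 := by
        rw [← Complex.log_re]
        exact Complex.re_add_im _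
      rw [h7, Complex.exp_log hα0]
    rw [e] at h6
    exact h6
  obtain ⟨n, hn1, hn2⟩ := ((h4.eventually (hU.mem_nhds haU)).and (eventually_ge_atTop (N + 1))).exists
  refine ⟨_, hn1, n, m n, by omega, ?_⟩
  have hn0 : (n : ℂ) ≠ 0 := by
    have : n ≠ 0 := by omega
    exact_mod_cast this
  rw [← Complex.exp_nat_mul]
  have e : (n : ℂ) * ((((m n : ℝ) / n * Real.log ‖β‖ : ℝ) : ℂ) +
      ((((m n : ℝ) * (Complex.log β).im + 2 * Real.pi * k n) / n : ℝ) : ℂ) * Complex.I) =
      (m n : ℂ) * Complex.log β + (k n : ℂ) * (2 * Real.pi * Complex.I) := by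
    have h7 : Complex.log β = ((Real.log ‖β‖ : ℝ) : ℂ) + (((Complex.log β).im : ℝ) : ℂ) * Complex.I := by
      rw [← Complex.log_re]
      exact (Complex.re_add_im _).symm
    conv_rhs => rw [h7]
    push_cast
    field_simp
    ring
  rw [e, Complex.exp_add, Complex.exp_nat_mul, Complex.exp_log hβ0]
  have h8 : Complex.exp ((k n : ℂ) * (2 * Real.pi * Complex.I)) = 1 :=
    Complex.exp_int_mul_two_pi_mul_I (k n)
  rw [h8, mul_one]

/-- from density to residual sets, for a normed field and the norms of the bases -/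
lemma generic {K : Type*} [NormedField K] {b : K} (P : K → Prop)
    (hPd : Dense ({a : K | P a} ∪ {a | ¬ P a ∧ a ∈ interior {a | ¬ P a}}))
    (hd : ∀ a0 : K, P a0 → ∀ U : Set K, IsOpen U → a0 ∈ U → ∀ N : ℕ, ∃ a ∈ U, ∃ n m : ℕ, N ≤ n ∧
      a ^ n = b ^ m) :
    ∀ᶠ a in residual K, P a → ∀ x : ℝ, 0 < x → {p : ℕ × ℕ | ‖a ^ p.1 - b ^ p.2‖ ≤ x}.Infinite := by
  have h : ∀ᶠ a in residual K, ∀ N : ℕ, P a → ∃ n m : ℕ, N ≤ n ∧ ‖a ^ n - b ^ m‖ < 1 / ((N : ℝ) + 1) := by
    rw [eventually_countable_forall]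
    intro N
    set V : Set K := {a | ∃ n m : ℕ, N ≤ n ∧ ‖a ^ n - b ^ m‖ < 1 / ((N : ℝ) + 1)} with hV
    have hVo : IsOpen V := by
      have : V = ⋃ (n : ℕ) (m : ℕ) (_ : N ≤ n), {a : K | ‖a ^ n - b ^ m‖ < 1 / ((N : ℝ) + 1)} := by
        ext a
        simp [hV]
      rw [this]
      refine isOpen_iUnion fun n => isOpen_iUnion fun m => isOpen_iUnion fun _ => ?_
      exact isOpen_lt (by fun_prop) continuous_const
    refine mem_of_superset (residual_of_dense_open (hVo.union isOpen_interior) ?_)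
      (?_ : V ∪ interior {a | ¬ P a} ⊆ _)
    · refine dense_iff_inter_open.2 fun U hU hne => ?_
      obtain ⟨a0, ha0U, ha0⟩ := hPd.inter_open_nonempty U hU hne
      rcases ha0 with ha0 | ha0
      · obtain ⟨a, haU, n, m, hn, e⟩ := hd a0 ha0 U hU ha0U N
        refine ⟨a, haU, Or.inl ⟨n, m, hn, ?_⟩⟩
        rw [e, sub_self, norm_zero]
        positivity
      · exact ⟨a0, ha0U, Or.inr ha0.2⟩
    · rintro a (ha | ha) hPa
      · exact ha
      · exact absurd hPa (interior_subset ha)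
  filter_upwards [h] with a ha hPa x hx
  intro hfin
  obtain ⟨B, hB⟩ := (hfin.image Prod.fst).bddAbove
  obtain ⟨N1, hN1⟩ := exists_nat_one_div_lt hx
  obtain ⟨n, m, hn, h1⟩ := ha (N1 + B + 1) hPa
  have h2 : (1 : ℝ) / (((N1 + B + 1 : ℕ) : ℝ) + 1) ≤ 1 / ((N1 : ℝ) + 1) := by
    apply one_div_le_one_div_of_le (by positivity)
    push_cast
    have : (0 : ℝ) ≤ B := Nat.cast_nonneg B
    linarith
  have h3 : n ≤ B := hB ⟨(n, m), by
    show ‖a ^ n - b ^ m‖ ≤ x
    linarith, rfl⟩
  omega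

/-- a power of `α` in the field of `β` -/
lemma pow_dep {K : Type*} [Field K] [CharZero K] {α β : K} (h : Transcendental ℚ⟮β⟯ α) {n m : ℤ}
    (hn : n ≠ 0) (e : α ^ n = β ^ m) : False := by
  have hβ : β ∈ ℚ⟮β⟯ := IntermediateField.mem_adjoin_simple_self ℚ β
  have key : ∀ k : ℕ, 0 < k → ∀ j : ℤ, α ^ k = β ^ j → False := by
    intro k hk j ej
    refine h (IsAlgebraic.of_pow hk ?_)
    rw [ej]
    have h1 : β ^ j ∈ ℚ⟮β⟯ := zpow_mem hβ j
    exact isAlgebraic_algebraMap (⟨β ^ j, h1⟩ : ℚ⟮β⟯)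
  rcases lt_or_gt_of_ne hn with h1 | h1
  · refine key n.natAbs (by omega) (-m) ?_
    rw [zpow_neg, ← e, ← zpow_neg, ← zpow_natCast]
    congr 1
    omega
  · refine key n.natAbs (by omega) m ?_
    rw [← e, ← zpow_natCast]
    congr 1
    omega

/-- **Independence of the bases is not sufficient.**  Let `b > 1` be real (for instance `b = e`).
Then the generic `a > 1` (all `a > 1` in a residual set) is transcendental over `ℚ(b)`, so that in
particular `log a / log b` is irrational, and nevertheless for EVERY `x > 0` there are infinitely many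
pairs `(n, m)` with `|a ^ n - b ^ m| ≤ x`.  The same for complex `α`, `β` of modulus greater
than one. -/
theorem result :
    (∀ b : ℝ, 1 < b → ∀ᶠ a in residual ℝ, 1 < a → Transcendental ℚ⟮b⟯ a ∧
      Irrational (Real.log a / Real.log b) ∧
      ∀ x : ℝ, 0 < x → {p : ℕ × ℕ | |a ^ p.1 - b ^ p.2| ≤ x}.Infinite) ∧
    (∀ β : ℂ, 1 < ‖β‖ → ∀ᶠ α in residual ℂ, 1 < ‖α‖ → Transcendental ℚ⟮β⟯ α ∧
      (∀ n m : ℤ, α ^ n = β ^ m → n = 0 ∧ m = 0) ∧
      ∀ x : ℝ, 0 < x → {p : ℕ × ℕ | ‖α ^ p.1 - β ^ p.2‖ ≤ x}.Infinite) := by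
  constructor
  · intro b hb
    have hlb : 0 < Real.log b := Real.log_pos hb
    have h1 := generic (K := ℝ) (b := b) (fun a => 1 < a) ?_ ?_
    · filter_upwards [h1, transc b] with a ha ht ha1
      have hla : 0 < Real.log a := Real.log_pos ha1
      refine ⟨ht, ?_, ha ha1⟩
      rintro ⟨q, hq⟩
      have hq0 : 0 < (q : ℝ) := by rw [hq]; positivity
      have hq' : 0 < q := by exact_mod_cast hq0
      refine pow_dep ht (n := q.den) (m := q.num) (by exact_mod_cast q.den_ne_zero) ?_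
      have e : (q.den : ℝ) * Real.log a = q.num * Real.log b := by
        have h2 : (q : ℝ) * Real.log b = Real.log a := by rw [hq]; field_simp
        have h3 : (q : ℝ) * q.den = q.num := by exact_mod_cast Rat.mul_den_eq_num q
        rw [← h2, ← h3]
        ring
      have hnum : 0 < q.num := Rat.num_pos.2 hq'
      have e2 : Real.log (a ^ (q.den : ℤ)) = Real.log (b ^ q.num) := by
        rw [Real.log_zpow, Real.log_zpow]
        exact_mod_cast e
      exact Real.log_injOn_pos (Set.mem_Ioi.2 (by positivity)) (Set.mem_Ioi.2 (by positivity)) e2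
    · refine dense_iff_inter_open.2 fun U hU ⟨a, haU⟩ => ?_
      by_cases h : 1 < a
      · exact ⟨a, haU, Or.inl h⟩
      · push Not at h
        have h2 : a ∈ closure (Set.Iio (1 : ℝ)) := by rw [closure_Iio]; exact h
        obtain ⟨c, hcU, hc⟩ := mem_closure_iff.1 h2 U hU haU
        refine ⟨c, hcU, Or.inr ⟨not_lt.2 (le_of_lt hc), ?_⟩⟩
        rw [mem_interior]
        exact ⟨Set.Iio 1, fun d hd => not_lt.2 (le_of_lt hd), isOpen_Iio, hc⟩
    · intro a0 ha0 U hU haU N
      exact dense_real hb ha0 hU haU N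
  · intro β hβ
    have hβ0 : β ≠ 0 := by
      intro h
      rw [h, norm_zero] at hβ
      linarith
    have h1 := generic (K := ℂ) (b := β) (fun a => 1 < ‖a‖) ?_ ?_
    · filter_upwards [h1, transc β] with a ha ht ha1
      refine ⟨ht, fun n m e => ?_, ha ha1⟩
      by_cases hn : n = 0
      · refine ⟨hn, ?_⟩
        rw [hn, zpow_zero] at e
        have h2 : ‖β‖ ^ m = 1 := by rw [← norm_zpow, ← e, norm_one]
        exact (zpow_eq_one_iff_right₀ (norm_nonneg β) hβ.ne').1 h2
      · exact (pow_dep ht hn e).elim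
    · refine dense_iff_inter_open.2 fun U hU ⟨a, haU⟩ => ?_
      by_cases h : 1 < ‖a‖
      · exact ⟨a, haU, Or.inl h⟩
      · push Not at h
        have h2 : a ∈ closure (Metric.ball (0 : ℂ) 1) := by
          rw [closure_ball _ one_ne_zero]
          simpa using h
        obtain ⟨c, hcU, hc⟩ := mem_closure_iff.1 h2 U hU haU
        have hc' : ‖c‖ < 1 := by simpa using hc
        refine ⟨c, hcU, Or.inr ⟨not_lt.2 hc'.le, ?_⟩⟩
        rw [mem_interior]
        refine ⟨Metric.ball 0 1, fun d hd => ?_, Metric.isOpen_ball, hc⟩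
        have : ‖d‖ < 1 := by simpa using hd
        exact not_lt.2 this.le
    · intro a0 ha0 U hU haU N
      exact dense_complex hβ ha0 hU haU N

end Pool.Agent.Results.MP_606be1_nt.IndependenceDoesNotSuffice
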