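import Pool.Agent.Q47.NC.Main

/-!
# At every scale the near coincidences can go wrong in one direction only

For a real number `t > 0` (`t = π` in the problem) we consider all pairs of bases in the group
generated by `e`, `2` and `t`, with exponents of size at most `X`, and count the near coincidences
of their powers with exponents at most `X`. The expected number, with an error `O(log x + log X)`
which is uniform in `t`, is right for all the pairs of bases which span, together with one vector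
`v` (depending on `t` and `X` only), the whole space.
-/

set_option autoImplicit false

namespace Pool.Agent.Results.MP_606be1_nt.OneDirectionFails

open Real

/-- the pairs `(n, m)` with `n, m ≤ X` and `|a ^ n - b ^ m| ≤ x` -/
def pairs (a b X x : ℝ) : Set (ℕ × ℕ) :=
  {p | (p.1 : ℝ) ≤ X ∧ (p.2 : ℝ) ≤ X ∧ |a ^ p.1 - b ^ p.2| ≤ x}

/-- The number of pairs with `n, m ≤ X` is `(log x) ^ 2 / (log a * log b)` up to
`C * (log x + log X)`, for all `x ≥ 2` for which `log x ≤ X * log a` and `log x ≤ X * log b`. -/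
def Estimate (C X a b : ℝ) : Prop :=
  ∀ x : ℝ, 2 ≤ x → log x ≤ X * log a → log x ≤ X * log b →
    |((pairs a b X x).ncard : ℝ) - log x ^ 2 / (log a * log b)| ≤ C * (log x + log X)

/-- The number `e ^ (p 0) * 2 ^ (p 1) * t ^ (p 2)`. -/
noncomputable def el (t : ℝ) (p : Fin 3 → ℤ) : ℝ := exp (p 0) * 2 ^ (p 1) * t ^ (p 2)

theorem result (ρ : ℝ) (hρ : 1 < ρ) (hρ2 : ρ ≤ 2) : ∃ C X₀ : ℝ, 2 ≤ X₀ ∧
    -- at the scale `X` there is one direction `v` outside of which the estimate holds
    (∀ t : ℝ, 0 < t → ∀ X : ℝ, X₀ ≤ X → ∃ v : Fin 3 → ℤ, v 2 ≠ 0 ∧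
      ∀ p q : Fin 3 → ℤ, (∀ i, |(p i : ℝ)| ≤ X) → (∀ i, |(q i : ℝ)| ≤ X) →
        (Matrix.of ![v, p, q]).det ≠ 0 → ρ ≤ el t p → ρ ≤ el t q →
          Estimate C X (el t p) (el t q)) ∧
    -- the alternative for `π` and `e`
    (∀ X : ℝ, X₀ ≤ X → Estimate C X π (exp 1) ∨
      ∀ i j k l : ℤ, j ≠ 0 → |(i : ℝ)| ≤ X → |(j : ℝ)| ≤ X → |(k : ℝ)| ≤ X → |(l : ℝ)| ≤ X →
        ρ ≤ exp i * 2 ^ j * π ^ k → ρ ≤ exp l →
          Estimate C X (exp i * 2 ^ j * π ^ k) (exp l)) := by
  obtain ⟨C, X₀, hX₀, hmain⟩ := Pool.Agent.Q47.NC.main ρ hρ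
  refine ⟨C, X₀, hX₀, hmain, fun X hX => ?_⟩
  obtain ⟨v, hv, h⟩ := hmain π pi_pos X hX
  have hX1 : 1 ≤ X := by linarith
  by_cases hv1 : v 1 = 0
  · right
    intro i j k l hj hi' hj' hk' hl' h1 h2
    have hl : l ≠ 0 := by
      rintro rfl
      rw [Int.cast_zero, Real.exp_zero] at h2
      linarith
    have e1 : Pool.Agent.Q47.NC.el π ![i, j, k] = exp i * 2 ^ j * π ^ k := by
      simp [Pool.Agent.Q47.NC.el]
    have e2 : Pool.Agent.Q47.NC.el π ![l, 0, 0] = exp l := by
      simp [Pool.Agent.Q47.NC.el]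
    have h3 := h ![i, j, k] ![l, 0, 0] ?_ ?_ ?_ ?_ ?_
    · rw [e1, e2] at h3
      exact h3
    · intro s
      fin_cases s
      · exact hi'
      · exact hj'
      · exact hk'
    · intro s
      fin_cases s
      · exact hl'
      · simpa using (by linarith : (0 : ℝ) ≤ X)
      · simpa using (by linarith : (0 : ℝ) ≤ X)
    · rw [Pool.Agent.Q47.NC.det3]
      simp [hv1, hv, hj, hl]
    · rw [e1]
      exact h1
    · rw [e2]
      exact h2
  · left
    have e1 : Pool.Agent.Q47.NC.el π ![0, 0, 1] = π := by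
      simp [Pool.Agent.Q47.NC.el]
    have e2 : Pool.Agent.Q47.NC.el π ![1, 0, 0] = exp 1 := by
      simp [Pool.Agent.Q47.NC.el]
    have h3 := h ![0, 0, 1] ![1, 0, 0] ?_ ?_ ?_ ?_ ?_
    · rw [e1, e2] at h3
      exact h3
    · intro s
      fin_cases s
      · simpa using (by linarith : (0 : ℝ) ≤ X)
      · simpa using (by linarith : (0 : ℝ) ≤ X)
      · simpa using hX1
    · intro s
      fin_cases s
      · simpa using hX1
      · simpa using (by linarith : (0 : ℝ) ≤ X)
      · simpa using (by linarith : (0 : ℝ) ≤ X)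
    · rw [Pool.Agent.Q47.NC.det3]
      simp [hv1]
    · rw [e1]
      have := Real.pi_gt_three
      linarith
    · rw [e2]
      have := Real.exp_one_gt_d9
      linarith

end Pool.Agent.Results.MP_606be1_nt.OneDirectionFails
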